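import Pool.Agent.H40.ISH.Stmts2
import Pool.Agent.H40.ISH.Basic

/-!
# ISH part 2, module STB: stability of the zero temperature shape
-/

set_option linter.unusedVariables false

namespace Pool.ISH

open scoped Classical

theorem stb_layer (N : ℕ) (z : ℤ) (hz : |z| ≤ (N : ℤ)) :
    ((Vb N).filter (fun x => x 2 = z)).card = (2 * N + 1) ^ 2 := by
  have h : (Vb N).filter (fun x => x 2 = z) =
      Fintype.piFinset (fun i : Fin 3 => if i = 2 then ({z} : Finset ℤ) else Finset.Icc (-(N : ℤ)) N) := by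
    ext x
    rw [Finset.mem_filter, mem_Vb, Fintype.mem_piFinset]
    constructor
    · rintro ⟨h1, h2⟩ i
      by_cases hi : i = 2
      · subst hi
        simp [h2]
      · rw [if_neg hi, Finset.mem_Icc]
        exact abs_le.1 (h1 i)
    · intro h1
      have h2 : x 2 = z := by
        have := h1 2
        simpa using this
      refine ⟨fun i => ?_, h2⟩
      by_cases hi : i = 2
      · subst hi
        rw [h2]
        exact hz
      · have := h1 i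
        rw [if_neg hi, Finset.mem_Icc] at this
        exact abs_le.2 this
  rw [h, Fintype.card_piFinset, Fin.prod_univ_three]
  have e0 : (0 : Fin 3) ≠ 2 := by decide
  have e1 : (1 : Fin 3) ≠ 2 := by decide
  rw [if_neg e0, if_neg e1, if_pos rfl, Int.card_Icc, Finset.card_singleton]
  have : ((N : ℤ) + 1 - -(N : ℤ)).toNat = 2 * N + 1 := by omega
  rw [this]
  ring

theorem stb_Tc_eq (N : ℕ) (P : Set Site) (z : ℤ) :
    Tc N P z = (((Vb N).filter (fun x => x 2 = z)).filter (fun x => x ∈ P)).card := by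
  unfold Tc
  rw [Finset.filter_filter]

theorem stb_TcC (N : ℕ) (P : Set Site) (z : ℤ) (hz : |z| ≤ (N : ℤ)) :
    Tc N P z + Tc N Pᶜ z = (2 * N + 1) ^ 2 := by
  rw [stb_Tc_eq, stb_Tc_eq, ← stb_layer N z hz]
  simp only [Set.mem_compl_iff]
  exact Finset.card_filter_add_card_filter_not _

theorem stb_TcR (N : ℕ) (P : Set Site) (z : ℤ) (hz : |z| ≤ (N : ℤ)) :
    (Tc N P z : ℝ) + (Tc N Pᶜ z : ℝ) = (2 * (N : ℝ) + 1) ^ 2 := by
  exact_mod_cast stb_TcC N P z hz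

theorem stb_Tc_le (N : ℕ) (P : Set Site) (z : ℤ) : Tc N P z ≤ (2 * N + 1) ^ 2 := by
  by_cases hz : |z| ≤ (N : ℤ)
  · have := stb_TcC N P z hz
    omega
  · have : Tc N P z = 0 := by
      unfold Tc
      rw [Finset.card_eq_zero, Finset.filter_eq_empty_iff]
      rintro x hx ⟨h1, -⟩
      have := mem_Vb.1 hx 2
      rw [h1] at this
      exact hz this
    omega

/-- sums over the layers -/
theorem stb_sum (N : ℕ) (p : Site → Prop) :
    ((Vb N).filter p).card =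
      ∑ z ∈ Finset.Icc (-(N : ℤ)) N, ((Vb N).filter (fun x => x 2 = z ∧ p x)).card := by
  have h := Finset.card_eq_sum_card_fiberwise (s := (Vb N).filter p) (t := Finset.Icc (-(N : ℤ)) N)
    (f := fun x : Site => x 2) (by
      intro x hx
      rw [Finset.mem_coe, Finset.mem_filter] at hx
      rw [Finset.mem_coe, Finset.mem_Icc]
      exact abs_le.1 (mem_Vb.1 hx.1 2))
  rw [h]
  refine Finset.sum_congr rfl fun z hz => ?_
  rw [Finset.filter_filter]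
  congr 1
  ext x
  simp only [Finset.mem_filter]
  tauto

/-- splitting of the sum at height zero -/
theorem stb_split (N : ℕ) (F : ℤ → ℝ) : ∑ z ∈ Finset.Icc (-(N : ℤ)) N, F z =
    ∑ z ∈ Finset.Icc (-(N : ℤ)) 0, F z + ∑ z ∈ Finset.Icc 1 N, F (z : ℤ) := by
  have h : Finset.Icc (-(N : ℤ)) N = Finset.Icc (-(N : ℤ)) 0 ∪ (Finset.Icc 1 N).image (Nat.cast) := by
    ext z
    simp only [Finset.mem_union, Finset.mem_Icc, Finset.mem_image]
    constructor
    · rintro ⟨h1, h2⟩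
      by_cases h3 : z ≤ 0
      · exact Or.inl ⟨h1, h3⟩
      · exact Or.inr ⟨z.toNat, by omega, by omega⟩
    · rintro (h | ⟨a, h1, h2⟩)
      · omega
      · omega
  rw [h, Finset.sum_union, Finset.sum_image]
  · intro a _ b _ hab
    exact_mod_cast hab
  · rw [Finset.disjoint_left]
    intro z h1 h2
    rw [Finset.mem_image] at h2
    obtain ⟨a, ha, rfl⟩ := h2
    rw [Finset.mem_Icc] at h1 ha
    omega

/-- columns -/
theorem stb_col (N : ℕ) (P : Set Site) (z z' : ℤ) (hz : |z| ≤ (N : ℤ)) (hz' : |z'| ≤ (N : ℤ)) :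
    Tc N P z' ≤ Tc N P z +
      ((Vb N).filter (fun x => x 2 = z ∧ x ∉ P ∧ Function.update x 2 z' ∈ P)).card := by
  have h1 : Tc N P z' = ((Vb N).filter (fun x => x 2 = z ∧ Function.update x 2 z' ∈ P)).card := by
    unfold Tc
    refine (Finset.card_bij' (fun x _ => Function.update x 2 z') (fun x _ => Function.update x 2 z)
      ?_ ?_ ?_ ?_).symm
    · intro x hx
      rw [Finset.mem_filter] at hx ⊢
      refine ⟨mem_Vb.2 fun i => ?_, by simp, hx.2.2⟩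
      by_cases hi : i = 2
      · subst hi
        simpa using hz'
      · rw [Function.update_of_ne hi]
        exact mem_Vb.1 hx.1 i
    · intro x hx
      rw [Finset.mem_filter] at hx ⊢
      refine ⟨mem_Vb.2 fun i => ?_, by simp, ?_⟩
      · by_cases hi : i = 2
        · subst hi
          simpa using hz
        · rw [Function.update_of_ne hi]
          exact mem_Vb.1 hx.1 i
      · rw [Function.update_idem, ← hx.2.1, Function.update_eq_self]
        exact hx.2.2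
    · intro x hx
      rw [Finset.mem_filter] at hx
      rw [Function.update_idem, ← hx.2.1, Function.update_eq_self]
    · intro x hx
      rw [Finset.mem_filter] at hx
      rw [Function.update_idem, ← hx.2.1, Function.update_eq_self]
  rw [h1]
  refine le_trans (Finset.card_le_card (t := (Vb N).filter (fun x => x 2 = z ∧ x ∈ P) ∪
    (Vb N).filter (fun x => x 2 = z ∧ x ∉ P ∧ Function.update x 2 z' ∈ P)) ?_)
    (Finset.card_union_le _ _)
  intro x hx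
  rw [Finset.mem_filter] at hx
  rw [Finset.mem_union, Finset.mem_filter, Finset.mem_filter]
  by_cases hP : x ∈ P
  · exact Or.inl ⟨hx.1, hx.2.1, hP⟩
  · exact Or.inr ⟨hx.1, hx.2.1, hP, hx.2.2⟩

theorem stb_low (N : ℕ) (P : Set Site) (t : ℝ) (z : ℤ) (hz : (z : ℝ) ≤ t) :
    ((Vb N).filter (fun x => x 2 = z ∧ ¬ (x ∈ P ↔ ((x 2 : ℤ) : ℝ) ≤ t))).card = Tc N Pᶜ z := by
  unfold Tc
  congr 1
  ext x
  simp only [Finset.mem_filter, Set.mem_compl_iff]
  constructor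
  · rintro ⟨a1, a2, a3⟩
    refine ⟨a1, a2, fun a4 => a3 ⟨fun _ => ?_, fun _ => a4⟩⟩
    rw [a2]
    exact hz
  · rintro ⟨a1, a2, a3⟩
    refine ⟨a1, a2, fun a4 => a3 (a4.2 ?_)⟩
    rw [a2]
    exact hz

theorem stb_up (N : ℕ) (P : Set Site) (t : ℝ) (z : ℤ) (hz : ¬ (z : ℝ) ≤ t) :
    ((Vb N).filter (fun x => x 2 = z ∧ ¬ (x ∈ P ↔ ((x 2 : ℤ) : ℝ) ≤ t))).card = Tc N P z := by
  unfold Tc
  congr 1
  ext x
  simp only [Finset.mem_filter]
  constructor
  · rintro ⟨a1, a2, a3⟩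
    refine ⟨a1, a2, ?_⟩
    by_contra a4
    refine a3 ⟨fun h => absurd h a4, fun h => ?_⟩
    rw [a2] at h
    exact absurd h hz
  · rintro ⟨a1, a2, a3⟩
    refine ⟨a1, a2, fun a4 => ?_⟩
    have := a4.1 a3
    rw [a2] at this
    exact hz this

/-- STB -/
theorem stb (hS : SUMStmt) (hV : VRTStmt) (hP : PERStmt) (hL : LVSStmt) : STBStmt := by
  intro ε hε
  obtain ⟨η₁, hη₁, N₁, hN₁⟩ := hL (ε / 18) (by positivity)
  refine ⟨min η₁ 1, lt_min hη₁ one_pos, max N₁ (⌈5 / η₁⌉₊ + 1), ?_⟩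
  intro N hN b hb0 hb1 P hOut hE hVol
  have hNN₁ : N₁ ≤ N := le_trans (le_max_left _ _) hN
  have hN5 : ⌈5 / η₁⌉₊ + 1 ≤ N := le_trans (le_max_right _ _) hN
  have hNpos : 1 ≤ N := by omega
  have hη1 : min η₁ 1 ≤ η₁ := min_le_left _ _
  have hη2 : min η₁ 1 ≤ 1 := min_le_right _ _
  set η := min η₁ 1 with hη
  have hNR : (1 : ℝ) ≤ N := by exact_mod_cast hNpos
  have h5 : 5 ≤ η₁ * N := by
    have h1 : 5 / η₁ ≤ (N : ℝ) := by
      refine le_trans (Nat.le_ceil _) ?_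
      exact_mod_cast (by omega : ⌈5 / η₁⌉₊ ≤ N)
    rw [div_le_iff₀ hη₁] at h1
    linarith
  set L : ℝ := 2 * (N : ℝ) + 1 with hLdef
  have hLpos : 0 < L := by positivity
  have hL2 : 0 < L ^ 2 := by positivity
  set f : ℕ → ℝ := fun z => (Tc N P (z : ℤ) : ℝ) / L ^ 2 with hf
  set g : ℝ := (∑ z ∈ Finset.Icc (-(N : ℤ)) 0, (Tc N Pᶜ z : ℝ)) / L ^ 2 with hg
  have hTcle : ∀ (Q : Set Site) (z : ℤ), (Tc N Q z : ℝ) ≤ L ^ 2 := by
    intro Q z
    have := stb_Tc_le N Q z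
    have h2 : ((Tc N Q z : ℕ) : ℝ) ≤ (((2 * N + 1) ^ 2 : ℕ) : ℝ) := by exact_mod_cast this
    push_cast at h2
    rw [hLdef]
    exact h2
  have hf01 : ∀ z, 0 ≤ f z ∧ f z ≤ 1 := by
    intro z
    refine ⟨by positivity, ?_⟩
    rw [hf]
    simp only []
    rw [div_le_one hL2]
    exact hTcle P z
  have hg0 : 0 ≤ g := div_nonneg (Finset.sum_nonneg fun _ _ => Nat.cast_nonneg _) hL2.le
  -- layers
  have hsum := hS N P
  have hvrt := hV N P hOut
  obtain ⟨hper1, hper2⟩ := hP N P hOut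
  have hsumR : (Ec N P : ℝ) = Vc N P + ∑ z ∈ Finset.Icc (-(N : ℤ)) N, (Hc N P z : ℝ) := by
    exact_mod_cast hsum
  rw [stb_split] at hsumR
  have hVcR : L ^ 2 ≤ (Vc N P : ℝ) := by
    rw [hLdef]
    exact_mod_cast hvrt.1
  -- horizontal bonds, positive heights
  have hH1 : ∑ z ∈ Finset.Icc 1 N, 4 * L * Real.sqrt (f z) ≤
      ∑ z ∈ Finset.Icc 1 N, (Hc N P (z : ℤ) : ℝ) := by
    refine Finset.sum_le_sum fun z hz => ?_
    rw [Finset.mem_Icc] at hz
    have h1 := hper1 z (by exact_mod_cast hz.1) (by exact_mod_cast hz.2)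
    have h2 : 16 * (Tc N P (z : ℤ) : ℝ) ≤ (Hc N P (z : ℤ) : ℝ) ^ 2 := by exact_mod_cast h1
    have h3 : L * Real.sqrt (f z) = Real.sqrt (Tc N P (z : ℤ) : ℝ) := by
      rw [hf]
      simp only []
      rw [Real.sqrt_div (by positivity), Real.sqrt_sq hLpos.le]
      field_simp
    have h4 : 4 * L * Real.sqrt (f z) = Real.sqrt (16 * (Tc N P (z : ℤ) : ℝ)) := by
      rw [Real.sqrt_mul (by norm_num), mul_assoc, h3]
      congr 1
      rw [show (16 : ℝ) = 4 ^ 2 by norm_num, Real.sqrt_sq (by norm_num)]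
    rw [h4]
    calc Real.sqrt (16 * (Tc N P (z : ℤ) : ℝ)) ≤ Real.sqrt ((Hc N P (z : ℤ) : ℝ) ^ 2) :=
          Real.sqrt_le_sqrt h2
      _ = _ := Real.sqrt_sq (by positivity)
  have hH2 : 4 * L * g ≤ ∑ z ∈ Finset.Icc (-(N : ℤ)) 0, (Hc N P z : ℝ) := by
    have e1 : 4 * L * g = ∑ z ∈ Finset.Icc (-(N : ℤ)) 0, 4 * (Tc N Pᶜ z : ℝ) / L := by
      rw [hg, ← Finset.sum_div, ← Finset.mul_sum]
      field_simp
    rw [e1]
    refine Finset.sum_le_sum fun z hz => ?_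
    rw [Finset.mem_Icc] at hz
    have h1 := hper2 z hz.1 hz.2
    have h2 : 16 * (Tc N Pᶜ z : ℝ) ≤ (Hc N P z : ℝ) ^ 2 := by exact_mod_cast h1
    rw [div_le_iff₀ hLpos]
    have h3 := hTcle Pᶜ z
    have h0 : (0 : ℝ) ≤ Tc N Pᶜ z := by positivity
    have h4 : (4 * (Tc N Pᶜ z : ℝ)) ^ 2 ≤ ((Hc N P z : ℝ) * L) ^ 2 := by
      calc (4 * (Tc N Pᶜ z : ℝ)) ^ 2 = (16 * (Tc N Pᶜ z : ℝ)) * (Tc N Pᶜ z : ℝ) := by ring
        _ ≤ (16 * (Tc N Pᶜ z : ℝ)) * L ^ 2 := by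
            apply mul_le_mul_of_nonneg_left h3; positivity
        _ ≤ (Hc N P z : ℝ) ^ 2 * L ^ 2 := by
            apply mul_le_mul_of_nonneg_right h2; positivity
        _ = _ := by ring
    exact abs_le_of_sq_le_sq' h4 (by positivity) |>.2
  rw [← Finset.mul_sum] at hH1
  have hbudget : 4 * (2 * (N : ℝ) + 1) * (∑ z ∈ Finset.Icc 1 N, Real.sqrt (f z) + g) ≤
      (b + η₁) * (N : ℝ) ^ 2 := by
    rw [← hLdef]
    have h1 : 4 * L * (∑ z ∈ Finset.Icc 1 N, Real.sqrt (f z)) + 4 * L * g ≤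
        (4 + b + η) * (N : ℝ) ^ 2 - L ^ 2 := by linarith
    have h2 : L ^ 2 ≥ 4 * (N : ℝ) ^ 2 := by
      rw [hLdef]
      nlinarith
    have h3 : η * (N : ℝ) ^ 2 ≤ η₁ * (N : ℝ) ^ 2 := by
      apply mul_le_mul_of_nonneg_right hη1
      positivity
    nlinarith
  -- volume
  have hvolsum : (((Vb N).filter (fun x => x ∈ P)).card : ℝ) =
      ((N : ℝ) + 1) * L ^ 2 - L ^ 2 * g + L ^ 2 * ∑ z ∈ Finset.Icc 1 N, f z := by
    have h1 := stb_sum N (fun x => x ∈ P)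
    have h2 : (((Vb N).filter (fun x => x ∈ P)).card : ℝ) =
        ∑ z ∈ Finset.Icc (-(N : ℤ)) N, (Tc N P z : ℝ) := by
      rw [h1]
      push_cast
      rfl
    rw [h2, stb_split]
    have h3 : ∑ z ∈ Finset.Icc (-(N : ℤ)) 0, (Tc N P z : ℝ) = ((N : ℝ) + 1) * L ^ 2 - L ^ 2 * g := by
      have e : ∀ z ∈ Finset.Icc (-(N : ℤ)) 0, (Tc N P z : ℝ) = L ^ 2 - (Tc N Pᶜ z : ℝ) := by
        intro z hz
        rw [Finset.mem_Icc] at hz
        have h := stb_TcR N P z (abs_le.2 ⟨hz.1, by omega⟩)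
        rw [← hLdef] at h
        linarith
      rw [Finset.sum_congr rfl e, Finset.sum_sub_distrib, Finset.sum_const, Int.card_Icc]
      have : ((0 : ℤ) + 1 - -(N : ℤ)).toNat = N + 1 := by omega
      rw [this, hg]
      simp only [nsmul_eq_mul]
      push_cast
      field_simp
    have h4 : ∑ z ∈ Finset.Icc 1 N, (Tc N P (z : ℤ) : ℝ) = L ^ 2 * ∑ z ∈ Finset.Icc 1 N, f z := by
      rw [Finset.mul_sum]
      refine Finset.sum_congr rfl fun z _ => ?_
      rw [hf]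
      field_simp
    rw [h3, h4]
  have hvol2 : (b / 8 - η₁) * N ≤ ∑ z ∈ Finset.Icc 1 N, f z - g := by
    have h1 : (4 + b / 2 - η) * (N : ℝ) ^ 3 ≤ ((N : ℝ) + 1) * L ^ 2 +
        L ^ 2 * (∑ z ∈ Finset.Icc 1 N, f z - g) := by
      rw [hvolsum] at hVol
      linarith
    have h2 : (b / 8 - η₁) * N * L ^ 2 ≤ (∑ z ∈ Finset.Icc 1 N, f z - g) * L ^ 2 := by
      have e1 : L ^ 2 = 4 * (N : ℝ) ^ 2 + 4 * N + 1 := by rw [hLdef]; ring
      have e2 : (b / 8 - η₁) * N * L ^ 2 ≤ (b / 2 - 4 * η₁) * (N : ℝ) ^ 3 +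
          (4 * (N : ℝ) ^ 2 + N) / 8 := by
        rw [e1]
        have : (b / 8 - η₁) * N * (4 * (N : ℝ) ^ 2 + 4 * N + 1) =
          (b / 2 - 4 * η₁) * (N : ℝ) ^ 3 + (b / 8 - η₁) * (4 * (N : ℝ) ^ 2 + N) := by ring
        rw [this]
        have h3 : (b / 8 - η₁) * (4 * (N : ℝ) ^ 2 + N) ≤ 1 / 8 * (4 * (N : ℝ) ^ 2 + N) := by
          apply mul_le_mul_of_nonneg_right
          · linarith
          · positivity
        linarith
      have e3 : ((N : ℝ) + 1) * L ^ 2 = 4 * (N : ℝ) ^ 3 + 8 * (N : ℝ) ^ 2 + 5 * N + 1 := by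
        rw [e1]; ring
      have e4 : η * (N : ℝ) ^ 3 ≤ η₁ * (N : ℝ) ^ 3 := by
        apply mul_le_mul_of_nonneg_right hη1
        positivity
      have e5 : 15 * (N : ℝ) ^ 2 ≤ 3 * η₁ * (N : ℝ) ^ 3 := by
        have : 3 * η₁ * (N : ℝ) ^ 3 = 3 * (η₁ * N) * (N : ℝ) ^ 2 := by ring
        rw [this]
        have : 0 ≤ (N : ℝ) ^ 2 := by positivity
        nlinarith
      have e6 : (N : ℝ) ≤ (N : ℝ) ^ 2 := by nlinarith
      nlinarith
    exact le_of_mul_le_mul_right h2 hL2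
  -- no inversion
  have hnoinv : ∀ z z' : ℕ, 1 ≤ z → z < z' → z' ≤ N → ¬ (f z ≤ 1 / 4 ∧ 3 / 4 ≤ f z') := by
    rintro z z' hz hzz hz' ⟨h1, h2⟩
    have h3 := hvrt.2 z z' (by exact_mod_cast hz) (by exact_mod_cast hzz) (by exact_mod_cast hz')
    have h4 := stb_col N P z z' (abs_le.2 ⟨by omega, by exact_mod_cast (by omega : z ≤ N)⟩)
      (abs_le.2 ⟨by omega, by exact_mod_cast hz'⟩)
    set c := ((Vb N).filter (fun x => x 2 = (z : ℤ) ∧ x ∉ P ∧ Function.update x 2 (z' : ℤ) ∈ P)).card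
    have h5 : (Tc N P (z : ℤ) : ℝ) ≤ 1 / 4 * L ^ 2 := by
      rw [hf] at h1
      simp only [] at h1
      rwa [div_le_iff₀ hL2] at h1
    have h6 : 3 / 4 * L ^ 2 ≤ (Tc N P (z' : ℤ) : ℝ) := by
      rw [hf] at h2
      simp only [] at h2
      rwa [le_div_iff₀ hL2] at h2
    have h7 : (Tc N P (z' : ℤ) : ℝ) ≤ Tc N P (z : ℤ) + c := by exact_mod_cast h4
    have h8 : L ^ 2 + 2 * (c : ℝ) ≤ Vc N P := by
      rw [hLdef]
      exact_mod_cast h3
    have h9 : (Vc N P : ℝ) ≤ Ec N P := by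
      have e1 : (0 : ℝ) ≤ ∑ z ∈ Finset.Icc (-(N : ℤ)) 0, (Hc N P z : ℝ) :=
        Finset.sum_nonneg fun _ _ => Nat.cast_nonneg _
      have e2 : (0 : ℝ) ≤ ∑ z ∈ Finset.Icc 1 N, (Hc N P (z : ℤ) : ℝ) :=
        Finset.sum_nonneg fun _ _ => Nat.cast_nonneg _
      linarith
    have h10 : 4 * (N : ℝ) ^ 2 < L ^ 2 := by
      rw [hLdef]
      nlinarith
    have h11 : (4 + b + η) * (N : ℝ) ^ 2 ≤ 6 * (N : ℝ) ^ 2 := by
      apply mul_le_mul_of_nonneg_right
      · linarith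
      · positivity
    nlinarith
  obtain ⟨hgle, hfle⟩ := hN₁ N hNN₁ b hb0 hb1 f g hf01 hg0 hbudget hvol2 hnoinv
  -- the number of sites
  have hDis : ((Dis N b P).card : ℝ) = L ^ 2 * (g + ∑ z ∈ Finset.Icc 1 N,
      |f z - (if (z : ℝ) ≤ b * N / 8 then 1 else 0)|) := by
    have h1 := stb_sum N (fun x => ¬ (x ∈ P ↔ ((x 2 : ℤ) : ℝ) ≤ b * N / 8))
    have h2 : ((Dis N b P).card : ℝ) = ∑ z ∈ Finset.Icc (-(N : ℤ)) N,
        (((Vb N).filter (fun x => x 2 = z ∧ ¬ (x ∈ P ↔ ((x 2 : ℤ) : ℝ) ≤ b * N / 8))).card : ℝ) := by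
      have h3 : (Dis N b P).card = ∑ z ∈ Finset.Icc (-(N : ℤ)) N,
          ((Vb N).filter (fun x => x 2 = z ∧ ¬ (x ∈ P ↔ ((x 2 : ℤ) : ℝ) ≤ b * N / 8))).card := by
        unfold Dis
        convert h1
      rw [h3, Nat.cast_sum]
    have lowl : ∀ z : ℤ, (z : ℝ) ≤ b * N / 8 →
        (((Vb N).filter (fun x => x 2 = z ∧ ¬ (x ∈ P ↔ ((x 2 : ℤ) : ℝ) ≤ b * N / 8))).card : ℝ) =
          Tc N Pᶜ z := fun z hz => by
      exact_mod_cast stb_low N P (b * N / 8) z hz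
    have upl : ∀ z : ℤ, ¬ (z : ℝ) ≤ b * N / 8 →
        (((Vb N).filter (fun x => x 2 = z ∧ ¬ (x ∈ P ↔ ((x 2 : ℤ) : ℝ) ≤ b * N / 8))).card : ℝ) =
          Tc N P z := fun z hz => by
      exact_mod_cast stb_up N P (b * N / 8) z hz
    rw [h2, stb_split, mul_add]
    congr 1
    · rw [hg, mul_div_cancel₀ _ hL2.ne']
      refine Finset.sum_congr rfl fun z hz => lowl z ?_
      rw [Finset.mem_Icc] at hz
      have : (z : ℝ) ≤ 0 := by exact_mod_cast hz.2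
      have : 0 ≤ b * N / 8 := by positivity
      linarith
    · rw [Finset.mul_sum]
      refine Finset.sum_congr rfl fun z hz => ?_
      rw [Finset.mem_Icc] at hz
      have hzN : |(z : ℤ)| ≤ (N : ℤ) := by
        rw [abs_le]
        omega
      have hTc := stb_TcR N P z hzN
      rw [← hLdef] at hTc
      have hTc' : (Tc N P (z : ℤ) : ℝ) + (Tc N Pᶜ (z : ℤ) : ℝ) = L ^ 2 := hTc
      have hfz : L ^ 2 * f z = Tc N P (z : ℤ) := by
        rw [hf]
        field_simp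
      by_cases hc : (z : ℝ) ≤ b * N / 8
      · rw [lowl z (by exact_mod_cast hc), if_pos hc, abs_of_nonpos (by linarith [(hf01 z).2])]
        linarith
      · rw [upl z (by exact_mod_cast hc), if_neg hc, sub_zero, abs_of_nonneg (hf01 z).1, hfz]
  rw [hDis]
  have h1 : L ^ 2 ≤ 9 * (N : ℝ) ^ 2 := by
    rw [hLdef]
    nlinarith
  have h2 : 0 ≤ ∑ z ∈ Finset.Icc 1 N, |f z - (if (z : ℝ) ≤ b * N / 8 then 1 else 0)| :=
    Finset.sum_nonneg fun _ _ => abs_nonneg _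
  calc L ^ 2 * (g + ∑ z ∈ Finset.Icc 1 N, |f z - (if (z : ℝ) ≤ b * N / 8 then 1 else 0)|)
      ≤ 9 * (N : ℝ) ^ 2 * (ε / 18 * N + ε / 18 * N) := by
        apply mul_le_mul h1 (by linarith) (by linarith) (by positivity)
    _ = ε * (N : ℝ) ^ 3 := by ring

end Pool.ISH
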